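import Pool.Agent.Lib.MP_121b2e_lc.QG.Exists

/-!
# Q-points without the Galvin property from one measurable cardinal

For every measurable cardinal `κ` there is a notion of forcing `P` which forces that `κ` is
regular, that `κ⁺` is not collapsed, and that there is a `κ`-complete nonprincipal ultrafilter on
`κ` which contains all closed unbounded sets and does not have the Galvin property.
-/

set_option autoImplicit false

namespace Pool.Agent.Results.MP_121b2e_lc.FromMeasurable

open Cardinal Set Pool.Agent.QG

universe u

/-- Let `κ` be a measurable cardinal. Then there is a notion of forcing `P` such that every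
condition forces: `κ` is regular, `κ⁺` is not collapsed, and there is a `κ`-complete nonprincipal
ultrafilter on `κ` which contains all closed unbounded subsets of `κ` and does not have the Galvin
property. -/
theorem result (κ : Cardinal.{u}) (hκ : ℵ₀ < κ) (U : Ultrafilter κ.ord.ToType)
    (hU : CardinalInterFilter (U : Filter κ.ord.ToType) κ) (hne : ∀ a, {a} ∉ U) :
    ∃ (P : Type u) (_ : Preorder P), Nonempty P ∧ ∀ p : P,
      fAnd (fRegular P κ.ord.ToType)
        (fAnd (fSuccPreserved P κ.ord.ToType (Order.succ κ).ord.ToType)
          (fExistsQPointNonGalvin P κ.ord.ToType (Order.succ κ).ord.ToType)) p := by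
  obtain ⟨D, c, h⟩ := exists_setup hκ U hU hne
  have hK : Nonempty κ.ord.ToType := (U.nonempty_of_mem Filter.univ_mem).to_type
  have hΩ : Nonempty (Order.succ κ).ord.ToType := by
    rw [← mk_ne_zero_iff, mk_ord_toType]
    exact (bot_le.trans_lt (Order.lt_succ κ)).ne'
  obtain ⟨s⟩ := h.nonempty_SCond
  exact ⟨PP D c, inferInstance, ⟨(s, Cond.empty)⟩, fun p => h.main p⟩

end Pool.Agent.Results.MP_121b2e_lc.FromMeasurable
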