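import Mathlib
import Pool.Agent.Lib.MP_121b2e_lc.Transfer

/-!
# Many normal measures: the club clause can be dropped

If `κ` carries `κ` many distinct normal measures, then `κ` carries a `κ`-complete ultrafilter
without the Galvin property if and only if it carries one extending the club filter.
-/

set_option autoImplicit false

open Cardinal Ordinal Filter

universe u

namespace Pool.Agent.Results.MP_121b2e_lc.ManyNormal

open Pool.Agent.Lib.MP_121b2e_lc.Transfer

/-- If there are `κ` many distinct normal measures on `κ`, then there is a `κ`-complete ultrafilter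
on `κ` without the Galvin property if and only if there is one which contains all club subsets
of `κ`. -/
theorem result (κ : Cardinal.{u}) (D : κ.ord.ToType → Ultrafilter κ.ord.ToType)
    (hinj : Function.Injective D) (hD : ∀ ξ, IsNormalMeasure κ (D ξ)) :
    (∃ W : Ultrafilter κ.ord.ToType, CardinalInterFilter (W : Filter κ.ord.ToType) κ ∧
      ¬ GalvinProperty κ W) ↔
    (∃ U : Ultrafilter κ.ord.ToType, CardinalInterFilter (U : Filter κ.ord.ToType) κ ∧
      (∀ C : Set κ.ord.ToType, IsClub C → C ∈ U) ∧ ¬ GalvinProperty κ U) := by
  constructor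
  · rintro ⟨W, hW, hG⟩
    obtain ⟨B, hB, hdisj⟩ := exists_disjoint D hinj hD
    exact transfer W hW hG D (fun ξ => (hD ξ).complete) (fun ξ C hC => (hD ξ).club hC) B hB hdisj
  · rintro ⟨U, hU, -, hG⟩
    exact ⟨U, hU, hG⟩

end Pool.Agent.Results.MP_121b2e_lc.ManyNormal
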